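import Pool.Agent.Y883.GJ.Stm
import Pool.Agent.Y883.T3.Vin

/-! Project GJ, part MAJL: the von Mangoldt function on the major arcs. -/

set_option autoImplicit false

namespace Pool.Agent.Y776.GJ

open Finset
open Pool.Agent.H807R2.Dav (ee)
open Pool.Agent.Y883.GJ

theorem bt_zero {U m : ℕ} (h : m ≤ U) : bt U m = 0 := by
  unfold bt
  apply Finset.sum_eq_zero
  intro e he
  rw [Finset.mem_filter] at he
  have := Nat.divisor_le he.1
  omega

theorem bt_abs (U m : ℕ) : |bt U m| ≤ (m.divisors.card : ℝ) := by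
  unfold bt
  refine (Finset.abs_sum_le_sum_abs _ _).trans ?_
  calc _ ≤ ∑ e ∈ m.divisors.filter (fun e => U < e), (1 : ℝ) := Finset.sum_le_sum fun e _ => by
        have := ArithmeticFunction.abs_moebius_le_one (n := e)
        exact_mod_cast this
    _ = ((m.divisors.filter (fun e => U < e)).card : ℝ) := by simp
    _ ≤ _ := by exact_mod_cast Finset.card_filter_le _ _

theorem lv_abs {U m N : ℕ} (h1 : 1 ≤ m) (h2 : m ≤ N) : |lv U m| ≤ Real.log N := by
  have hm : (1 : ℝ) ≤ m := by exact_mod_cast h1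
  have hN : (m : ℝ) ≤ N := by exact_mod_cast h2
  have h0 : 0 ≤ Real.log m := Real.log_nonneg hm
  have h3 : Real.log m ≤ Real.log N := Real.log_le_log (by linarith) hN
  unfold lv
  split_ifs
  · rw [abs_of_nonneg ArithmeticFunction.vonMangoldt_nonneg]
    exact ArithmeticFunction.vonMangoldt_le_log.trans h3
  · simp only [abs_zero]; linarith

theorem swap {V : Type} [AddCommMonoid V] (N : ℕ) (f : ℕ → ℕ → V) :
    ∑ b ∈ Icc 1 N, ∑ c ∈ Icc 1 (N / b), f b c = ∑ c ∈ Icc 1 N, ∑ b ∈ Icc 1 (N / c), f b c := by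
  apply Finset.sum_comm'
  intro b c
  simp only [mem_Icc]
  constructor
  · rintro ⟨⟨h1, h2⟩, h3, h4⟩
    have h5 : c * b ≤ N := (Nat.le_div_iff_mul_le h1).1 h4
    exact ⟨⟨h1, (Nat.le_div_iff_mul_le h3).2 (by rwa [mul_comm] at h5)⟩, h3,
      le_trans (Nat.le_mul_of_pos_right c h1) h5⟩
  · rintro ⟨⟨h1, h2⟩, h3, h4⟩
    have h5 : b * c ≤ N := (Nat.le_div_iff_mul_le h3).1 h2
    exact ⟨⟨h1, le_trans (Nat.le_mul_of_pos_right b h3) h5⟩, h3,
      (Nat.le_div_iff_mul_le h1).2 (by rwa [mul_comm] at h5)⟩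

theorem rsm {ι : Type} [Fintype ι] (r : ℝ) (v : EuclideanSpace ℂ ι) : r • v = (r : ℂ) • v := by
  ext i
  simp

/-- coefficients of the first bilinear sum -/
noncomputable def a1 (U N m : ℕ) : ℂ := if m * m ≤ N then ((bt U m : ℝ) : ℂ) else 0
/-- coefficients of the first bilinear sum -/
noncomputable def b1 (U k : ℕ) : ℂ := ((lv U k : ℝ) : ℂ)
/-- coefficients of the second bilinear sum -/
noncomputable def a2 (U N m : ℕ) : ℂ := if m * m ≤ N then ((lv U m : ℝ) : ℂ) else 0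
/-- coefficients of the second bilinear sum -/
noncomputable def b2 (U N k : ℕ) : ℂ := if N < k * k then ((bt U k : ℝ) : ℂ) else 0

theorem bil_split {ι : Type} [Fintype ι] (E : ℕ → EuclideanSpace ℂ ι) (N U : ℕ) :
    ∑ b ∈ Icc 1 N, ∑ c ∈ Icc 1 (N / b), (bt U b * lv U c) • E (b * c) =
      ∑ m ∈ Icc 1 N, ∑ k ∈ Icc 1 (N / m), (a1 U N m * b1 U k) • E (m * k) +
      ∑ m ∈ Icc 1 N, ∑ k ∈ Icc 1 (N / m), (a2 U N m * b2 U N k) • E (m * k) := by
  rw [swap N (fun m k => (a2 U N m * b2 U N k) • E (m * k)), ← sum_add_distrib]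
  refine sum_congr rfl fun m hm => ?_
  rw [← sum_add_distrib]
  refine sum_congr rfl fun k hk => ?_
  rw [mem_Icc] at hm hk
  have h5 : k * m ≤ N := (Nat.le_div_iff_mul_le hm.1).1 hk.2
  rw [rsm, Complex.ofReal_mul]
  by_cases h : m * m ≤ N
  · have h1 : a1 U N m = ((bt U m : ℝ) : ℂ) := by unfold a1; rw [if_pos h]
    have h2 : b2 U N m = 0 := by unfold b2; rw [if_neg (by omega)]
    rw [h1, h2, mul_zero, zero_smul, add_zero]
    rfl
  · have h1 : a1 U N m = 0 := by unfold a1; rw [if_neg h]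
    have h2 : b2 U N m = ((bt U m : ℝ) : ℂ) := by unfold b2; rw [if_pos (by omega)]
    have h3 : k < m := by
      by_contra h4
      push Not at h4
      exact h (le_trans (Nat.mul_le_mul_right m h4) h5)
    have h4 : a2 U N k = ((lv U k : ℝ) : ℂ) := by
      unfold a2
      rw [if_pos (le_trans (Nat.mul_le_mul_left k h3.le) h5)]
    rw [h1, h2, h4, zero_mul, zero_smul, zero_add, mul_comm k m, mul_comm ((lv U k : ℝ) : ℂ)]

theorem card_char (q : ℕ) [NeZero q] : (Fintype.card (DirichletCharacter ℂ q) : ℝ) ≤ q := by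
  have h := DirichletCharacter.card_eq_totient_of_hasEnoughRootsOfUnity ℂ q
  rw [Nat.card_eq_fintype_card] at h
  rw [h]
  exact_mod_cast Nat.totient_le q

theorem ev_mem {q : ℕ} [NeZero q] (S : Finset (DirichletCharacter ℂ q)) (β : ℝ) (n : ℕ)
    {χ : DirichletCharacter ℂ q} (h : χ ∈ S) : ev S β n χ = χ (n : ZMod q) * ee (n * β) := by
  unfold ev
  simp only [h, if_true]

theorem ev_notMem {q : ℕ} [NeZero q] (S : Finset (DirichletCharacter ℂ q)) (β : ℝ) (n : ℕ)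
    {χ : DirichletCharacter ℂ q} (h : χ ∉ S) : ev S β n χ = 0 := by
  unfold ev
  simp only [h, if_false]

theorem ev_norm {q : ℕ} [NeZero q] (S : Finset (DirichletCharacter ℂ q)) (β : ℝ) (n : ℕ) :
    ‖ev S β n‖ ≤ Real.sqrt q := by
  rw [EuclideanSpace.norm_eq]
  apply Real.sqrt_le_sqrt
  calc ∑ χ, ‖(ev S β n) χ‖ ^ 2 ≤ ∑ _χ : DirichletCharacter ℂ q, (1 : ℝ) := by
        refine Finset.sum_le_sum fun χ _ => ?_
        by_cases h : χ ∈ S
        · rw [ev_mem S β n h, norm_mul, Pool.Agent.H807R2.Dav.norm_ee, mul_one]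
          have h1 := DirichletCharacter.norm_le_one χ (n : ZMod q)
          have h2 := norm_nonneg (χ (n : ZMod q))
          nlinarith
        · rw [ev_notMem S β n h]; simp
    _ = (Fintype.card (DirichletCharacter ℂ q) : ℝ) := by simp
    _ ≤ q := card_char q

theorem norm_ev_sum {q : ℕ} [NeZero q] (S : Finset (DirichletCharacter ℂ q)) (β : ℝ) (N : ℕ) :
    ‖∑ n ∈ Icc 1 N, (ArithmeticFunction.vonMangoldt n) • ev S β n‖ ^ 2 =
      ∑ χ ∈ S, ‖cs q N LA β χ‖ ^ 2 := by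
  rw [EuclideanSpace.norm_sq_eq]
  symm
  have key : ∀ χ : DirichletCharacter ℂ q,
      (∑ n ∈ Icc 1 N, (ArithmeticFunction.vonMangoldt n) • ev S β n) χ =
        ∑ n ∈ Icc 1 N, ((ArithmeticFunction.vonMangoldt n : ℝ) : ℂ) * ev S β n χ := by
    intro χ
    rw [WithLp.ofLp_sum, Finset.sum_apply]
    refine sum_congr rfl fun n _ => ?_
    rw [rsm]
    rfl
  rw [← Finset.sum_subset (Finset.subset_univ S) (fun χ _ h => ?_)]
  · refine sum_congr rfl fun χ h => ?_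
    rw [key]
    congr 2
    unfold cs LA
    refine sum_congr rfl fun n _ => ?_
    rw [ev_mem S β n h, mul_assoc]
  · rw [key]
    rw [Finset.sum_eq_zero fun n _ => by rw [ev_notMem S β n h, mul_zero]]
    simp

theorem vau_num {x L u qq s P : ℝ} (A C : ℕ) (hx : 1 ≤ x) (hL : 9 ≤ L) (hP : P = L ^ C)
    (hu1 : 1 ≤ u) (hu : u ≤ x ^ (1 / 10 : ℝ)) (hq1 : 1 ≤ qq) (hq : qq ≤ x ^ (1 / 2 : ℝ))
    (hs1 : 1 ≤ s) (hs : s ≤ x ^ (1 / 4 : ℝ)) (hlog : 49 * L ^ (C + 1 + (A + 1)) ≤ x ^ (1 / 20 : ℝ)) :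
    u * (L * s) + 3 * (1 + L) * ((u * u) * (qq * s * (8 * P))) ≤ x / L ^ (A + 1) := by
  have hx0 : 0 < x := by linarith
  have hL0 : 0 < L := by linarith
  have hP1 : 1 ≤ P := by rw [hP]; exact one_le_pow₀ (by linarith)
  have h1 : u * u ≤ x ^ (1 / 5 : ℝ) := by
    have h : x ^ (1 / 5 : ℝ) = x ^ (1 / 10 : ℝ) * x ^ (1 / 10 : ℝ) := by
      rw [← Real.rpow_add hx0]; norm_num
    rw [h]
    exact mul_le_mul hu hu (by linarith) (by positivity)
  have h2 : u * u * (qq * s) ≤ x ^ (19 / 20 : ℝ) := by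
    have h : x ^ (19 / 20 : ℝ) = x ^ (1 / 5 : ℝ) * (x ^ (1 / 2 : ℝ) * x ^ (1 / 4 : ℝ)) := by
      rw [← Real.rpow_add hx0, ← Real.rpow_add hx0]; norm_num
    rw [h]
    refine mul_le_mul h1 (mul_le_mul hq hs (by linarith) (by positivity)) (by positivity)
      (by positivity)
  have h3 : u * (L * s) ≤ L * P * (u * u * (qq * s)) := by
    have e1 : u * s ≤ (u * u) * (qq * s) := by
      have e2 : u ≤ u * u := by nlinarith
      have e3 : s ≤ qq * s := by nlinarith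
      exact mul_le_mul e2 e3 (by linarith) (by positivity)
    have e4 : u * u * (qq * s) ≤ P * (u * u * (qq * s)) := by
      have : 0 ≤ u * u * (qq * s) := by positivity
      nlinarith
    calc u * (L * s) = L * (u * s) := by ring
      _ ≤ L * (P * (u * u * (qq * s))) := mul_le_mul_of_nonneg_left (e1.trans e4) hL0.le
      _ = _ := by ring
  have h4 : 3 * (1 + L) * ((u * u) * (qq * s * (8 * P))) ≤ 48 * (L * P * (u * u * (qq * s))) := by
    have : 0 ≤ P * (u * u * (qq * s)) := by positivity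
    calc 3 * (1 + L) * ((u * u) * (qq * s * (8 * P))) =
        24 * (1 + L) * (P * (u * u * (qq * s))) := by ring
      _ ≤ 24 * (2 * L) * (P * (u * u * (qq * s))) := by
          apply mul_le_mul_of_nonneg_right _ this
          linarith
      _ = _ := by ring
  have h5 : L * P * (u * u * (qq * s)) ≤ L ^ (C + 1) * x ^ (19 / 20 : ℝ) := by
    have e1 : L * P = L ^ (C + 1) := by rw [hP]; ring
    rw [e1]
    exact mul_le_mul_of_nonneg_left h2 (by positivity)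
  have h6 : 49 * (L ^ (C + 1) * x ^ (19 / 20 : ℝ)) ≤ x / L ^ (A + 1) := by
    rw [le_div_iff₀ (by positivity)]
    have e1 : x = x ^ (1 / 20 : ℝ) * x ^ (19 / 20 : ℝ) := by
      rw [← Real.rpow_add hx0]; norm_num
    calc 49 * (L ^ (C + 1) * x ^ (19 / 20 : ℝ)) * L ^ (A + 1) =
        49 * L ^ (C + 1 + (A + 1)) * x ^ (19 / 20 : ℝ) := by rw [pow_add L (C + 1)]; ring
      _ ≤ x ^ (1 / 20 : ℝ) * x ^ (19 / 20 : ℝ) :=
          mul_le_mul_of_nonneg_right hlog (by positivity)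
      _ = x := e1.symm
  linarith

theorem vau_part (h1 : VauStm) (h2 : TiMajStm) (A C N q : ℕ) [NeZero q] (hN : 1 ≤ N)
    (hq : (q : ℝ) ≤ (N : ℝ) ^ (1 / 2 : ℝ)) (hL : 9 ≤ Real.log N)
    (hlog : 49 * Real.log N ^ (C + 1 + (A + 1)) ≤ (N : ℝ) ^ (1 / 20 : ℝ))
    (S : Finset (DirichletCharacter ℂ q)) (hS : (1 : DirichletCharacter ℂ q) ∉ S) (η : ℝ)
    (hη : |η| ≤ Real.log N ^ C / N) :
    ‖∑ n ∈ Icc 1 N, (ArithmeticFunction.vonMangoldt n) • ev S η n -
      ∑ b ∈ Icc 1 N, ∑ c ∈ Icc 1 (N / b), (bt ⌊(N : ℝ) ^ (1 / 10 : ℝ)⌋₊ b *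
        lv ⌊(N : ℝ) ^ (1 / 10 : ℝ)⌋₊ c) • ev S η (b * c)‖ ≤ N / Real.log N ^ (A + 1) := by
  have hx : (1 : ℝ) ≤ N := by exact_mod_cast hN
  have hx0 : (0 : ℝ) < N := by linarith
  set U := ⌊(N : ℝ) ^ (1 / 10 : ℝ)⌋₊ with hU
  have hUle : (U : ℝ) ≤ (N : ℝ) ^ (1 / 10 : ℝ) := Nat.floor_le (by positivity)
  have hU1 : 1 ≤ U := by
    rw [hU]
    apply Nat.le_floor
    simpa using Real.one_le_rpow hx (by norm_num : (0 : ℝ) ≤ 1 / 10)
  have hUU : U * U ≤ N := by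
    have e1 : ((U * U : ℕ) : ℝ) ≤ N := by
      push_cast
      calc (U : ℝ) * U ≤ (N : ℝ) ^ (1 / 10 : ℝ) * (N : ℝ) ^ (1 / 10 : ℝ) :=
            mul_le_mul hUle hUle (by positivity) (by positivity)
        _ = (N : ℝ) ^ (1 / 5 : ℝ) := by rw [← Real.rpow_add hx0]; norm_num
        _ ≤ (N : ℝ) ^ (1 : ℝ) := Real.rpow_le_rpow_of_exponent_le hx (by norm_num)
        _ = N := Real.rpow_one _
    exact_mod_cast e1
  have hUN : U ≤ N := le_trans (Nat.le_mul_of_pos_right U hU1) hUU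
  have hq1 : (1 : ℝ) ≤ q := by
    have := NeZero.one_le (n := q)
    exact_mod_cast this
  have hs1 : 1 ≤ Real.sqrt q := by rw [Real.one_le_sqrt]; exact hq1
  have hs : Real.sqrt q ≤ (N : ℝ) ^ (1 / 4 : ℝ) := by
    rw [Real.sqrt_le_left (by positivity)]
    rw [← Real.rpow_natCast, ← Real.rpow_mul (by positivity)]
    norm_num
    norm_num at hq
    exact hq
  have hηN : |η| * N ≤ Real.log N ^ C := by
    rwa [le_div_iff₀ hx0] at hη
  have hP1 : 1 ≤ Real.log N ^ C := one_le_pow₀ (by linarith)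
  have hV := h1 (EuclideanSpace ℂ (DirichletCharacter ℂ q)) (ev S η) N U
    (fun _ => q * Real.sqrt q * (8 * Real.log N ^ C)) hU1 hUU ?_
  · refine hV.trans ?_
    rw [Finset.sum_const, Nat.card_Icc, nsmul_eq_mul]
    have e1 : ∑ n ∈ Icc 1 U, ArithmeticFunction.vonMangoldt n * ‖ev S η n‖ ≤
        U * (Real.log N * Real.sqrt q) := by
      calc _ ≤ ∑ _n ∈ Icc 1 U, Real.log N * Real.sqrt q := by
            refine Finset.sum_le_sum fun n hn => ?_
            rw [mem_Icc] at hn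
            have hn1 : (1 : ℝ) ≤ n := by exact_mod_cast hn.1
            have hnN : (n : ℝ) ≤ N := by exact_mod_cast hn.2.trans hUN
            have := Real.log_le_log (by linarith) hnN
            exact mul_le_mul (ArithmeticFunction.vonMangoldt_le_log.trans this) (ev_norm S η n)
              (norm_nonneg _) (by linarith)
        _ = _ := by rw [Finset.sum_const, Nat.card_Icc, nsmul_eq_mul]; simp
    have e2 := vau_num A C hx hL rfl (by exact_mod_cast hU1) hUle hq1 hq hs1 hs hlog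
    have e3 : ((U * U + 1 - 1 : ℕ) : ℝ) = (U : ℝ) * U := by
      rw [Nat.add_sub_cancel]; push_cast; ring
    rw [e3]
    linarith
  · intro c hc y hy
    rw [mem_Icc] at hc
    refine (h2 q S hS η c y).trans ?_
    apply mul_le_mul_of_nonneg_left _ (by positivity)
    have e1 : (c : ℝ) * y ≤ N := by
      have : y * c ≤ N := (Nat.le_div_iff_mul_le hc.1).1 hy
      rw [mul_comm] at this
      exact_mod_cast this
    have e2 : |η| * (c * y) ≤ |η| * N := mul_le_mul_of_nonneg_left e1 (abs_nonneg _)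
    nlinarith

theorem bil_part {A C C₃ N₀ : ℕ} {ρ : ℝ}
    (h : ∀ N : ℕ, N₀ ≤ N → ∀ (q : ℕ) [NeZero q], (q : ℝ) ≤ (N : ℝ) ^ (1 / 2 - ρ) → ∀ a b : ℕ → ℂ,
      (∀ m ∈ Icc 1 N, ‖a m‖ ≤ Real.log N * (m.divisors.card : ℝ)) →
      (∀ m ∈ Icc 1 N, ‖b m‖ ≤ Real.log N * (m.divisors.card : ℝ)) →
      (∀ m, a m ≠ 0 → (N : ℝ) ^ (1 / 10 : ℝ) ≤ 2 * m ∧ m * m ≤ N) →
      ∃ B : Finset (DirichletCharacter ℂ q), (B.card : ℝ) ≤ Real.log N ^ C₃ ∧
        ∀ η : ℝ, |η| ≤ Real.log N ^ C / N → ∀ S : Finset (DirichletCharacter ℂ q), Disjoint S B →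
        ‖∑ m ∈ Icc 1 N, ∑ k ∈ Icc 1 (N / m), (a m * b k) • ev S η (m * k)‖ ^ 2 ≤
          (N : ℝ) ^ 2 / Real.log N ^ A)
    (N q : ℕ) [NeZero q] (hN0 : N₀ ≤ N) (hq : (q : ℝ) ≤ (N : ℝ) ^ (1 / 2 - ρ))
    (hL : 9 ≤ Real.log N) :
    ∃ B1 B2 : Finset (DirichletCharacter ℂ q), (B1.card : ℝ) ≤ Real.log N ^ C₃ ∧
      (B2.card : ℝ) ≤ Real.log N ^ C₃ ∧
      ∀ η : ℝ, |η| ≤ Real.log N ^ C / N → ∀ S : Finset (DirichletCharacter ℂ q), Disjoint S B1 →
        Disjoint S B2 →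
        ∃ X Y : EuclideanSpace ℂ (DirichletCharacter ℂ q),
        ∑ b ∈ Icc 1 N, ∑ c ∈ Icc 1 (N / b), (bt ⌊(N : ℝ) ^ (1 / 10 : ℝ)⌋₊ b *
          lv ⌊(N : ℝ) ^ (1 / 10 : ℝ)⌋₊ c) • ev S η (b * c) = X + Y ∧
        ‖X‖ ^ 2 ≤ (N : ℝ) ^ 2 / Real.log N ^ A ∧ ‖Y‖ ^ 2 ≤ (N : ℝ) ^ 2 / Real.log N ^ A := by
  set U := ⌊(N : ℝ) ^ (1 / 10 : ℝ)⌋₊ with hU
  have hUlt : ∀ m : ℕ, U < m → (N : ℝ) ^ (1 / 10 : ℝ) ≤ 2 * m := by
    intro m hm
    have e1 := Nat.lt_floor_add_one ((N : ℝ) ^ (1 / 10 : ℝ))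
    have e2 : (U : ℝ) + 1 ≤ m := by exact_mod_cast hm
    rw [← hU] at e1
    have e3 : (0 : ℝ) ≤ m := Nat.cast_nonneg m
    linarith
  have hbt : ∀ m ∈ Icc 1 N, ‖((bt U m : ℝ) : ℂ)‖ ≤ Real.log N * (m.divisors.card : ℝ) := by
    intro m _
    rw [Complex.norm_real, Real.norm_eq_abs]
    have e1 := bt_abs U m
    have e2 : (0 : ℝ) ≤ (m.divisors.card : ℝ) := Nat.cast_nonneg _
    nlinarith
  have hlv : ∀ m ∈ Icc 1 N, ‖((lv U m : ℝ) : ℂ)‖ ≤ Real.log N * (m.divisors.card : ℝ) := by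
    intro m hm
    rw [mem_Icc] at hm
    rw [Complex.norm_real, Real.norm_eq_abs]
    have e1 := lv_abs (U := U) hm.1 hm.2
    have e2 : (1 : ℝ) ≤ (m.divisors.card : ℝ) := by
      have : 0 < m.divisors.card := Finset.card_pos.2 ⟨1, Nat.one_mem_divisors.2 (by omega)⟩
      exact_mod_cast this
    nlinarith
  have hz : ∀ m : ℕ, ‖(0 : ℂ)‖ ≤ Real.log N * (m.divisors.card : ℝ) := by
    intro m
    rw [norm_zero]
    have e2 : (0 : ℝ) ≤ (m.divisors.card : ℝ) := Nat.cast_nonneg _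
    have e3 : 0 ≤ Real.log N := by linarith
    positivity
  obtain ⟨B1, hB1, hb1⟩ := h N hN0 q hq (a1 U N) (b1 U)
    (fun m hm => by unfold a1; split_ifs; exacts [hbt m hm, hz m])
    (fun m hm => by unfold b1; exact hlv m hm)
    (fun m hm => by
      unfold a1 at hm
      by_cases h4 : m * m ≤ N
      · rw [if_pos h4] at hm
        refine ⟨hUlt m ?_, h4⟩
        by_contra h5
        push Not at h5
        rw [bt_zero h5] at hm
        simp at hm
      · rw [if_neg h4] at hm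
        exact absurd rfl hm)
  obtain ⟨B2, hB2, hb2⟩ := h N hN0 q hq (a2 U N) (b2 U N)
    (fun m hm => by unfold a2; split_ifs; exacts [hlv m hm, hz m])
    (fun m hm => by unfold b2; split_ifs; exacts [hbt m hm, hz m])
    (fun m hm => by
      unfold a2 at hm
      by_cases h4 : m * m ≤ N
      · rw [if_pos h4] at hm
        refine ⟨hUlt m ?_, h4⟩
        by_contra h5
        have : lv U m = 0 := by unfold lv; rw [if_neg h5]
        rw [this] at hm
        simp at hm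
      · rw [if_neg h4] at hm
        exact absurd rfl hm)
  refine ⟨B1, B2, hB1, hB2, fun η hη S hS1 hS2 => ⟨_, _, bil_split (ev S η) N U, ?_, ?_⟩⟩
  · exact hb1 η hη S hS1
  · exact hb2 η hη S hS2

theorem fin_num {x L e X Y T : ℝ} (A : ℕ) (hL : 9 ≤ L) (hx : 0 < x) (he0 : 0 ≤ e)
    (he : e ≤ x / L ^ (A + 1)) (hX : X ^ 2 ≤ x ^ 2 / L ^ (A + 1)) (hY : Y ^ 2 ≤ x ^ 2 / L ^ (A + 1))
    (hT0 : 0 ≤ T) (hT : T ≤ e + (X + Y)) : T ^ 2 ≤ x ^ 2 / L ^ A := by
  have hL0 : 0 < L := by linarith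
  have h1 : T ^ 2 ≤ 3 * (e ^ 2 + X ^ 2 + Y ^ 2) := by
    have : T ^ 2 ≤ (e + (X + Y)) ^ 2 := pow_le_pow_left₀ hT0 hT 2
    nlinarith [sq_nonneg (e - X), sq_nonneg (e - Y), sq_nonneg (X - Y)]
  have h2 : e ^ 2 ≤ x ^ 2 / L ^ (A + 1) := by
    calc e ^ 2 ≤ (x / L ^ (A + 1)) ^ 2 := pow_le_pow_left₀ he0 he 2
      _ = x ^ 2 / (L ^ (A + 1) * L ^ (A + 1)) := by rw [div_pow]; ring_nf
      _ ≤ x ^ 2 / (L ^ (A + 1) * 1) := by
          apply div_le_div_of_nonneg_left (by positivity) (by positivity)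
          apply mul_le_mul_of_nonneg_left _ (by positivity)
          exact one_le_pow₀ (by linarith)
      _ = _ := by rw [mul_one]
  have h3 : 9 * (x ^ 2 / L ^ (A + 1)) ≤ x ^ 2 / L ^ A := by
    have e1 : L ^ (A + 1) = L ^ A * L := pow_succ L A
    rw [e1, ← mul_div_assoc, div_le_div_iff₀ (by positivity) (by positivity)]
    have : 0 ≤ x ^ 2 * L ^ A := by positivity
    calc 9 * x ^ 2 * L ^ A = 9 * (x ^ 2 * L ^ A) := by ring
      _ ≤ L * (x ^ 2 * L ^ A) := mul_le_mul_of_nonneg_right hL this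
      _ = _ := by ring
  linarith

theorem majL (h1 : VauStm) (h2 : TiMajStm) (h3 : BilMajStm) : MajLStm := by
  intro A C ρ hρ
  obtain ⟨C₃, n1, hB⟩ := h3 (A + 1) C ρ hρ
  obtain ⟨n2, hn2⟩ := Pool.Agent.Y883.T3.ev_log_rpow (C + 1 + (A + 1)) 49 (1 / 20) (by norm_num)
  obtain ⟨n3, hn3⟩ := Pool.Agent.H373R2.T7.ev_L' 9
  refine ⟨C₃ + 1, max (max n1 n2) (max n3 1), fun N hN q _ hq => ?_⟩
  have hN1 : n1 ≤ N := le_trans (le_trans (le_max_left _ _) (le_max_left _ _)) hN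
  have hN2 : n2 ≤ N := le_trans (le_trans (le_max_right _ _) (le_max_left _ _)) hN
  have hN3 : n3 ≤ N := le_trans (le_trans (le_max_left _ _) (le_max_right _ _)) hN
  have hN4 : 1 ≤ N := le_trans (le_trans (le_max_right _ _) (le_max_right _ _)) hN
  have hL := hn3 N hN3
  have hlog := hn2 N hN2
  have hx : (1 : ℝ) ≤ N := by exact_mod_cast hN4
  have hx0 : (0 : ℝ) < N := by linarith
  have hq' : (q : ℝ) ≤ (N : ℝ) ^ (1 / 2 : ℝ) :=
    hq.trans (Real.rpow_le_rpow_of_exponent_le hx (by linarith))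
  obtain ⟨B1, B2, hB1, hB2, hbil⟩ := bil_part hB N q hN1 hq hL
  classical
  refine ⟨insert 1 (B1 ∪ B2), Finset.mem_insert_self _ _, ?_, ?_⟩
  · have e1 : ((insert (1 : DirichletCharacter ℂ q) (B1 ∪ B2)).card : ℝ) ≤
        (B1.card : ℝ) + B2.card + 1 := by
      have e2 := Finset.card_insert_le (1 : DirichletCharacter ℂ q) (B1 ∪ B2)
      have e3 := Finset.card_union_le B1 B2
      have : (insert (1 : DirichletCharacter ℂ q) (B1 ∪ B2)).card ≤ B1.card + B2.card + 1 := by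
        omega
      exact_mod_cast this
    have e4 : 1 ≤ Real.log N ^ C₃ := one_le_pow₀ (by linarith)
    rw [pow_succ]
    nlinarith
  · intro η hη S hS
    have hS1 : (1 : DirichletCharacter ℂ q) ∉ S := fun h =>
      Finset.disjoint_left.1 hS h (Finset.mem_insert_self _ _)
    have hd1 : Disjoint S B1 := hS.mono_right
      (Finset.subset_union_left.trans (Finset.subset_insert _ _))
    have hd2 : Disjoint S B2 := hS.mono_right
      (Finset.subset_union_right.trans (Finset.subset_insert _ _))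
    obtain ⟨X, Y, hXY, hX, hY⟩ := hbil η hη S hd1 hd2
    have hv := vau_part h1 h2 A C N q hN4 hq' hL hlog S hS1 η hη
    rw [hXY] at hv
    rw [← norm_ev_sum]
    refine fin_num A hL hx0 (norm_nonneg _) hv hX hY (norm_nonneg _) ?_
    generalize (∑ n ∈ Icc 1 N, (ArithmeticFunction.vonMangoldt n) • ev S η n) = Z
    calc ‖Z‖ = ‖(Z - (X + Y)) + (X + Y)‖ := by rw [sub_add_cancel]
      _ ≤ ‖Z - (X + Y)‖ + ‖X + Y‖ := norm_add_le _ _
      _ ≤ ‖Z - (X + Y)‖ + (‖X‖ + ‖Y‖) := by gcongr; exact norm_add_le _ _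

end Pool.Agent.Y776.GJ
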